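import Pool.Agent.Lib.MP_c7af3c_ag.T2.H54.Small

/-!
# MP_c7af3c_ag, project T2: SHARP/H26/Size.lean for valuations with values in any ordered group
(copied from Gen.H52.Loc, Sharp.H26.Det, Sharp.H26.Size with `Γ` replaced by `Γ`)
-/

set_option autoImplicit false
set_option linter.unusedSectionVars false

namespace Pool.Agent.T2.G

open MvPolynomial Pool.Agent.Gen Pool.Agent.Sharp

theorem V_bound {L : Type} [Field L] {Γ : Type}
    [LinearOrderedCommGroupWithZero Γ] {n c : ℕ} {d : Fin c → ℕ} (D : DSys L n c d)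
    (x' : Fin (n + 1) → L) (v : Valuation L Γ) (M N : Γ)
    (hdel : ∀ m I, I.degree = d m → ∀ f, v f ≤ 1 → v (D.del m I f) ≤ M)
    (hx' : ∀ p, v (x' p) ≤ 1) (m : Fin c) (G : MvPolynomial (Fin (n + 1)) L)
    (hG : ∀ I ∈ G.support, I.degree = d m) (hN : ∀ I, v (coeff I G) ≤ N) (p : Fin (n + 1)) :
    v (D.V x' m G p) ≤ N * M := by
  rw [D.V_apply]
  refine v.map_sum_le fun I hI => ?_
  rw [map_mul]
  exact mul_le_mul' (hN I) (hdel m I (hG I hI) _ (hx' p))

theorem v_natCast_le {L : Type} [Field L] {Γ : Type}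
    [LinearOrderedCommGroupWithZero Γ] (v : Valuation L Γ) (k : ℕ) : v (k : L) ≤ 1 := by
  induction k with
  | zero => simp
  | succ k ih =>
    push_cast
    exact (v.map_add _ _).trans (max_le ih (by rw [map_one]))

section

variable {L : Type} [Field L] {Γ : Type} [LinearOrderedCommGroupWithZero Γ] {ι : Type} [Fintype ι] [DecidableEq ι]

theorem v_det_le (v : Valuation L Γ) (A : Matrix ι ι L) (σ : ι → Γ)
    (h : ∀ a k, v (A a k) ≤ σ k) : v A.det ≤ ∏ k, σ k := by
  rw [Matrix.det_apply]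
  refine v.map_sum_le fun τ _ => ?_
  have h1 : v (Equiv.Perm.sign τ • ∏ i, A (τ i) i) = ∏ i, v (A (τ i) i) := by
    rcases Int.units_eq_one_or (Equiv.Perm.sign τ) with h | h
    · rw [h, one_smul, map_prod]
    · rw [h, Units.neg_smul, one_smul, Valuation.map_neg, map_prod]
  rw [h1]
  exact Finset.prod_le_prod' fun i _ => h _ _

/-- LOCDET -/
theorem locdet (v : Valuation L Γ) (B N : ι → ι → L) (lam : ι → L) (ρ : ι → ℕ) (σ : ι → Γ)
    (h : ∀ k, B k - lam k • N k ∈ Submodule.span L {u | ∃ k', ρ k' < ρ k ∧ B k' = u})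
    (hN : ∀ k a, v (N k a) ≤ σ k) :
    v (Matrix.det (Matrix.of fun a k => B k a)) ≤ ∏ k, (v (lam k) * σ k) := by
  rw [det_replace B N lam ρ h, map_mul, map_prod, Finset.prod_mul_distrib]
  exact mul_le_mul' le_rfl (v_det_le v _ σ fun a k => hN k a)

/-- LOCDET for rows indexed by another type -/
theorem locdet' {R : Type} [Fintype R] [DecidableEq R] (e : ι ≃ R) (v : Valuation L Γ)
    (B N : ι → R → L) (lam : ι → L) (ρ : ι → ℕ) (σ : ι → Γ)
    (h : ∀ k, B k - lam k • N k ∈ Submodule.span L {u | ∃ k', ρ k' < ρ k ∧ B k' = u})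
    (hN : ∀ k a, v (N k a) ≤ σ k) :
    v (Matrix.det (Matrix.of fun a k => B k (e a))) ≤ ∏ k, (v (lam k) * σ k) := by
  refine locdet v (fun k a => B k (e a)) (fun k a => N k (e a)) lam ρ σ (fun k => ?_)
    fun k a => hN k _
  have h1 := Submodule.mem_map_of_mem (f := LinearMap.funLeft L L e) (h k)
  rw [Submodule.map_span] at h1
  have h2 : (LinearMap.funLeft L L e) '' {u | ∃ k', ρ k' < ρ k ∧ B k' = u} =
      {u | ∃ k', ρ k' < ρ k ∧ (fun a => B k' (e a)) = u} := by
    ext u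
    constructor
    · rintro ⟨_, ⟨k', hk', rfl⟩, rfl⟩
      exact ⟨k', hk', rfl⟩
    · rintro ⟨k', hk', rfl⟩
      exact ⟨_, ⟨k', hk', rfl⟩, rfl⟩
  rw [h2] at h1
  exact h1

end

section coefs
variable {L : Type} [Field L] {Γ : Type} [LinearOrderedCommGroupWithZero Γ] {σ : Type} (v : Valuation L Γ)

/-- the coefficients are bounded -/
def CB (G : MvPolynomial σ L) (b : Γ) : Prop := ∀ I, v (coeff I G) ≤ b

theorem CB.mul {G H : MvPolynomial σ L} {b b' : Γ} (hG : CB v G b) (hH : CB v H b') :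
    CB v (G * H) (b * b') := by
  classical
  intro I
  rw [coeff_mul]
  refine v.map_sum_le fun q _ => ?_
  rw [map_mul]
  exact mul_le_mul' (hG _) (hH _)

theorem CB.add {G H : MvPolynomial σ L} {b : Γ} (hG : CB v G b) (hH : CB v H b) :
    CB v (G + H) b := by
  intro I
  rw [coeff_add]
  exact (v.map_add _ _).trans (max_le (hG I) (hH I))

theorem CB.sub {G H : MvPolynomial σ L} {b : Γ} (hG : CB v G b) (hH : CB v H b) :
    CB v (G - H) b := by
  intro I
  rw [coeff_sub]
  exact (v.map_sub _ _).trans (max_le (hG I) (hH I))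

theorem CB.mono {G : MvPolynomial σ L} {b b' : Γ} (hG : CB v G b) (h : b ≤ b') :
    CB v G b' := fun I => (hG I).trans h

theorem CB_CX (a : L) (i : σ) : CB v (C a * X i : MvPolynomial σ L) (v a) := by
  classical
  intro I
  rw [coeff_C_mul, coeff_X, map_mul]
  split_ifs
  · rw [map_one, mul_one]
  · rw [map_zero, mul_zero]
    exact zero_le

theorem CB_X (i : σ) : CB v (X i : MvPolynomial σ L) 1 := by
  have h := CB_CX v (1 : L) i
  rwa [C_1, one_mul, map_one] at h

end coefs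

section sizes
variable {L : Type} [Field L] {Γ : Type} [LinearOrderedCommGroupWithZero Γ] {n c : ℕ} {d : Fin c → ℕ} (D : DSys L n c d)
  (x : Fin (n + 1) → L)

theorem VT_bound (x' : Fin (n + 1) → L) (v : Valuation L Γ) (M b : Γ)
    (hdel : ∀ m I, I.degree = d m → ∀ f, v f ≤ 1 → v (D.del m I f) ≤ M)
    (hx' : ∀ p, v (x' p) ≤ 1) (G : Fin c → MvPolynomial (Fin (n + 1)) L)
    (hG : ∀ m, ∀ I ∈ (G m).support, I.degree = d m) (hb : ∀ m, CB v (G m) b) (p : Fin (n + 1)) :
    v (VT D x' G p) ≤ b * M := by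
  rw [VT_apply, Finset.sum_apply]
  exact v.map_sum_le fun m _ =>
    V_bound D x' v M b hdel hx' m (G m) (hG m) (hb m) p

theorem v_smul_le {v : Valuation L Γ} {iv : Fin (n + 1)} (hiv : x iv ≠ 0)
    (hle : ∀ j, v (x j) ≤ v (x iv)) (p : Fin (n + 1)) : v (((x iv)⁻¹ • x) p) ≤ 1 := by
  rw [Pi.smul_apply, smul_eq_mul, map_mul, map_inv₀]
  calc (v (x iv))⁻¹ * v (x p) ≤ (v (x iv))⁻¹ * v (x iv) := mul_le_mul' le_rfl (hle p)
    _ = 1 := inv_mul_cancel₀ ((map_ne_zero v).2 hiv)

/-- the coefficients of `X_q F_p` -/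
theorem CB_XF {v : Valuation L Γ} {M : Γ} {F : MvPolynomial (Fin (n + 1)) L}
    (hF : CB v F M) (p q : Fin (n + 1)) : CB v (X q * pderiv p F) M := by
  classical
  have h1 : CB v (pderiv p F) M := by
    intro I
    rw [coeff_pderiv, map_mul]
    calc _ ≤ M * 1 := mul_le_mul' (hF _) (by
          exact_mod_cast v_natCast_le v _)
      _ = M := mul_one M
  have h2 := (CB_X v q).mul v h1
  rwa [one_mul] at h2

/-- the reduction of `W(p,q)` -/
theorem WT_red {v : Valuation L Γ} {M : Γ} (hM : 1 ≤ M)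
    (hdel : ∀ m I, I.degree = d m → ∀ f, v f ≤ 1 → v (D.del m I f) ≤ M)
    (hF : ∀ m, CB v (D.F m) M) {iv : Fin (n + 1)} (hiv : x iv ≠ 0)
    (hle : ∀ j, v (x j) ≤ v (x iv)) (p q : Fin (n + 1)) :
    ∃ N : Fin (n + 1) → L, WT D x p q - x iv • N ∈ Submodule.span L {x} ∧
      ∀ a, v (N a) ≤ M * M := by
  refine ⟨((x iv)⁻¹ • x) q • Pi.single p 1 +
    VT D ((x iv)⁻¹ • x) fun m => X q * pderiv p (D.F m), ?_, fun a => ?_⟩
  · have h := VT_scale D x hiv fun m => X q * pderiv p (D.F m)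
    have h1 : WT D x p q - x iv • (((x iv)⁻¹ • x) q • Pi.single p 1 +
        VT D ((x iv)⁻¹ • x) fun m => X q * pderiv p (D.F m)) =
        (VT D x fun m => X q * pderiv p (D.F m)) -
        x iv • VT D ((x iv)⁻¹ • x) fun m => X q * pderiv p (D.F m) := by
      unfold WT
      rw [smul_add, smul_smul, Pi.smul_apply, smul_eq_mul, ← mul_assoc, mul_inv_cancel₀ hiv,
        one_mul]
      abel
    rw [h1]
    exact h
  · rw [Pi.add_apply]
    refine (v.map_add _ _).trans (max_le ?_ ?_)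
    · rw [Pi.smul_apply, smul_eq_mul, map_mul]
      refine mul_le_mul' ((v_smul_le x hiv hle q).trans hM) ?_
      refine le_trans ?_ hM
      by_cases hp : a = p
      · subst hp; simp
      · rw [Pi.single_eq_of_ne hp, map_zero]; exact zero_le
    · exact VT_bound D _ v M M hdel (v_smul_le x hiv hle) _ (fun m => deg_XF D m p q)
        (fun m => CB_XF (hF m) p q) a

variable {ι : Type} [Fintype ι] [DecidableEq ι]

/-- the local estimate -/
theorem local_bound (v : Valuation L Γ) (M : Γ)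
    (hdel : ∀ m I, I.degree = d m → ∀ f, v f ≤ 1 → v (D.del m I f) ≤ M)
    {iv : Fin (n + 1)} (hiv : x iv ≠ 0) (hle : ∀ j, v (x j) ≤ v (x iv))
    (K : ι → Fin (n + 1) → L) (k0 : ι) (hk0 : K k0 = x) (ρ : ι → ℕ)
    (N : ι → Fin (n + 1) → L) (τ : ι → L) (σ : ι → Γ)
    (hred : ∀ k, K k - (τ k * x iv) • N k ∈ Submodule.span L {u | ∃ k', ρ k' < ρ k ∧ K k' = u})
    (hN : ∀ k a, v (N k a) ≤ σ k) (e : ι ⊕ Fin c ≃ Fin (n + 1)) (μ : L)
    (hμ : Matrix.det (Matrix.of fun a k => colU D x K iv k (e a)) = μ * x iv ^ (∑ m, d m)) :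
    v μ * v (x iv) ^ (∑ m, d m) ≤ v (x iv) ^ (n + 1) * (∏ k, v (τ k) * σ k) * M ^ c := by
  have h1 := locdet' e v (colU D x K iv)
    (Sum.elim N fun m => D.V ((x iv)⁻¹ • x) m (X iv ^ d m))
    (Sum.elim (fun k => τ k * x iv) fun _ => x iv)
    (Sum.elim ρ fun _ => Finset.univ.sup ρ + 1) (Sum.elim σ fun _ => M) ?_ ?_
  · rw [hμ, map_mul, map_pow, Fintype.prod_sum_type] at h1
    simp only [Sum.elim_inl, Sum.elim_inr] at h1
    refine h1.trans (le_of_eq ?_)
    have hcard : Fintype.card ι + c = n + 1 := by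
      have := Fintype.card_congr e
      rw [Fintype.card_sum, Fintype.card_fin, Fintype.card_fin] at this
      exact this
    have e1 : ∏ k, v (τ k * x iv) * σ k = (∏ k, v (τ k) * σ k) * v (x iv) ^ Fintype.card ι := by
      rw [← Finset.card_univ, ← Finset.prod_const, ← Finset.prod_mul_distrib]
      exact Finset.prod_congr rfl fun k _ => by rw [map_mul, mul_right_comm]
    rw [e1, Finset.prod_const, Finset.card_univ, Fintype.card_fin, mul_pow, ← hcard, pow_add]
    rw [mul_comm (∏ k, v (τ k) * σ k), mul_assoc, mul_assoc, mul_assoc,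
      mul_left_comm (∏ k, v (τ k) * σ k)]
  · rintro (k | m)
    · simp only [Sum.elim_inl, colU]
      refine Submodule.span_mono ?_ (hred k)
      rintro _ ⟨k', hk', rfl⟩
      exact ⟨Sum.inl k', hk', rfl⟩
    · simp only [Sum.elim_inr, colU]
      have h2 : D.V x m (X iv ^ d m) - x iv • D.V ((x iv)⁻¹ • x) m (X iv ^ d m) ∈
          Submodule.span L {x} := by
        have h3 := VT_scale D x hiv (Pi.single m (X iv ^ d m))
        have h4 : ∀ x' : Fin (n + 1) → L, VT D x' (Pi.single m (X iv ^ d m)) =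
            D.V x' m (X iv ^ d m) := by
          intro x'
          rw [VT_apply, Finset.sum_eq_single m]
          · rw [Pi.single_eq_same]
          · intro b _ hb
            rw [Pi.single_eq_of_ne hb, map_zero]
          · intro h; exact absurd (Finset.mem_univ m) h
        rwa [h4, h4] at h3
      refine Submodule.span_mono ?_ h2
      rintro _ rfl
      refine ⟨Sum.inl k0, ?_, hk0⟩
      exact Nat.lt_succ_of_le (Finset.le_sup (f := ρ) (Finset.mem_univ k0))
  · rintro (k | m) a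
    · exact hN k a
    · simp only [Sum.elim_inr]
      rw [X_pow_eq_monomial, D.V_monomial, one_mul]
      refine hdel m _ ?_ _ (v_smul_le x hiv hle a)
      rw [Finsupp.degree_single]

end sizes

end Pool.Agent.T2.G
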