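import Pool.Agent.Lib.MP_c7af3c_ag.T2.H54.SizeG
import Pool.Agent.Lib.MP_c7af3c_ag.EDGE.H54.Nl

/-!
# MP_c7af3c_ag, project T2: first consequences of `Sit`
`k` is stable under the derivations, `x` is not on a line over `k`, local normal forms of the
columns `V(G)` and `W(p,q)`.
-/

set_option autoImplicit false

namespace Pool.Agent.T2

open MvPolynomial Pool.Agent.Gen Pool.Agent.Sharp Pool.Agent.Edge

variable {Ω : Type} [Field Ω] {k : Subfield Ω} {Γ : Type} [LinearOrderedCommGroupWithZero Γ]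
  {S : Sizes Ω k Γ} {n c : ℕ} {d : Fin c → ℕ} {D : DSys Ω n c d} {x : Fin (n + 1) → Ω}
  {j0 : Fin (n + 1)}

/-- the size of a derivative -/
theorem Sit.v_del_le (h : Sit S D x j0) (p : S.V) (m : Fin c) (I : Fin (n + 1) →₀ ℕ)
    (hI : I.degree = d m) (f : Ω) : S.v p (D.del m I f) ≤ S.M p * S.sz f p ^ 2 := by
  by_cases hf : S.v p f ≤ 1
  · calc S.v p (D.del m I f) ≤ S.M p := h.hdel p m I hI f hf
      _ = S.M p * 1 := (mul_one _).symm
      _ ≤ _ := mul_le_mul' le_rfl (one_le_pow₀ (S.one_le_sz f p))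
  · push Not at hf
    have hf0 : f ≠ 0 := by
      rintro rfl
      rw [map_zero] at hf
      exact absurd hf (not_lt.2 zero_le)
    have h1 : S.v p f⁻¹ ≤ 1 := by
      rw [map_inv₀]
      exact (inv_lt_one_of_one_lt₀ hf).le
    have h2 := h.hdel p m I hI _ h1
    have h3 : D.del m I f = -(f ^ 2 * D.del m I f⁻¹) := by
      have h4 : D.del m I (f * f⁻¹) = 0 := by
        rw [mul_inv_cancel₀ hf0]
        exact (D.del m I).map_one_eq_zero
      rw [Derivation.leibniz, smul_eq_mul, smul_eq_mul] at h4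
      have h5 : f ^ 2 * D.del m I f⁻¹ = f * (f * D.del m I f⁻¹) := by ring
      rw [h5, eq_neg_of_add_eq_zero_left h4]
      have : f * -(f⁻¹ * D.del m I f) = -(f * f⁻¹ * D.del m I f) := by ring
      rw [this, mul_inv_cancel₀ hf0, one_mul, neg_neg]
    rw [h3, Valuation.map_neg, map_mul, map_pow, mul_comm]
    exact mul_le_mul' h2 (pow_le_pow_left' (S.le_sz f p) 2)

/-- `k` is stable under the derivations -/
theorem Sit.kD (h : Sit S D x j0) (m : Fin c) (I : Fin (n + 1) →₀ ℕ) (hI : I.degree = d m)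
    {f : Ω} (hf : f ∈ k) : D.del m I f ∈ k :=
  ((S.small_M.mul ((S.small_sz hf).pow 2)).mono fun p => h.v_del_le p m I hI f).mem

/-- the point is not a multiple of a vector over `k` -/
theorem Sit.not_smul (h : Sit S D x j0) (z : Fin (n + 1) → Ω) (hz : ∀ i, z i ∈ k) (t : Ω) :
    x ≠ t • z := by
  obtain ⟨i0, hi0⟩ := h.xk
  intro ht
  have h1 : t * z j0 = 1 := by rw [← h.hj0, ht]; rfl
  have h2 : t = (z j0)⁻¹ := eq_inv_of_mul_eq_one_left h1
  apply hi0
  rw [ht, Pi.smul_apply, smul_eq_mul, h2]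
  exact k.mul_mem (k.inv_mem (hz j0)) (hz i0)

/-- the point is not on a line over `k` -/
theorem Sit.nl (h : Sit S D x j0) (u w : Fin (n + 1) → Ω) (hu : ∀ i, u i ∈ k)
    (hw : ∀ i, w i ∈ k) (a b : Ω) : x ≠ a • u + b • w := by
  intro hx
  have hmul := h.not_smul
  have ha : a ≠ 0 := by
    rintro rfl
    exact hmul w hw b (by rw [hx, zero_smul, zero_add])
  have hli : LinearIndependent Ω ![x, w] := by
    rw [LinearIndependent.pair_iff]
    intro s t hst
    by_contra hne
    by_cases hs : s = 0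
    · rw [hs, zero_smul, zero_add] at hst
      have ht : t ≠ 0 := fun ht => hne ⟨hs, ht⟩
      have hw0 : w = 0 := (smul_eq_zero.1 hst).resolve_left ht
      exact hmul u hu a (by rw [hx, hw0, smul_zero, add_zero])
    · refine hmul w hw (-(s⁻¹ * t)) ?_
      have h1 : x = s⁻¹ • (s • x) := by rw [smul_smul, inv_mul_cancel₀ hs, one_smul]
      rw [h1, eq_neg_of_add_eq_zero_left hst, smul_neg, smul_smul, neg_smul]
  obtain ⟨m, hm⟩ := h.hno w hli
  have hpe : ∀ t : Ω, (lineP (D.F m) x w).eval t =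
      a ^ d m * (lineP (D.F m) u w).eval ((b + t) / a) := by
    intro t
    rw [Sharp.H54.lineP_eval, Sharp.H54.lineP_eval, ← Sharp.H54.eval_smul_form (D.hom m)]
    have h1 : (fun p => x p + t * w p) = fun p => a * (u p + (b + t) / a * w p) := by
      funext p
      rw [hx, Pi.add_apply, Pi.smul_apply, Pi.smul_apply, smul_eq_mul, smul_eq_mul]
      field_simp
      ring
    rw [h1]
  have hp := Edge.H54.coeff_lineP_mem k (D.F m) (h.kF m) hu hw
  have hp0 : lineP (D.F m) u w ≠ 0 := by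
    intro h0
    apply hm
    refine Polynomial.eq_of_infinite_eval_eq _ _ ?_
    have hinf : Infinite Ω := by
      by_contra hfin
      rw [not_infinite_iff_finite] at hfin
      obtain ⟨i0, hi0⟩ := h.xk
      obtain ⟨N, hN, hN'⟩ : ∃ N, 0 < N ∧ x i0 ^ N = 1 ∨ ∃ N, 0 < N ∧ x i0 = 0 := by
        by_cases hx0 : x i0 = 0
        · exact ⟨1, Or.inr ⟨1, one_pos, hx0⟩⟩
        · have := isOfFinOrder_of_finite (Units.mk0 (x i0) hx0)
          rw [isOfFinOrder_iff_pow_eq_one] at this
          obtain ⟨N, hN, h1⟩ := this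
          refine ⟨N, Or.inl ⟨hN, ?_⟩⟩
          have := congrArg Units.val h1
          simpa using this
      · refine hi0 (h.kalg _ (Polynomial.X ^ N - 1) ?_ ?_ ?_)
        · exact Polynomial.X_pow_sub_C_ne_zero hN 1
        · intro i
          rw [Polynomial.coeff_sub, Polynomial.coeff_X_pow, Polynomial.coeff_one]
          exact k.sub_mem (by split_ifs <;> simp [k.one_mem, k.zero_mem])
            (by split_ifs <;> simp [k.one_mem, k.zero_mem])
        · simp [hN']
      · rename_i hN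
        obtain ⟨N', hN', hN0⟩ := hN
        exact hi0 (hN0 ▸ k.zero_mem)
    refine Set.infinite_univ.mono fun t _ => ?_
    rw [Set.mem_ofPred_eq, hpe, h0, Polynomial.eval_zero, mul_zero, Polynomial.eval_zero]
  have hroot : (lineP (D.F m) u w).eval (b / a) = 0 := by
    have h1 := hpe 0
    rw [Sharp.H54.lineP_eval, add_zero] at h1
    have h2 : eval (fun p => x p + 0 * w p) (D.F m) = 0 := by
      have : (fun p => x p + 0 * w p) = x := by funext p; ring
      rw [this]
      exact h.h0 m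
    rw [h2] at h1
    exact (mul_eq_zero.1 h1.symm).resolve_left (pow_ne_zero _ ha)
  have hT := h.kalg (b / a) _ hp0 hp hroot
  refine hmul (u + (b / a) • w) (fun i => k.add_mem (hu i) (k.mul_mem hT (hw i))) a ?_
  rw [hx, smul_add, smul_smul, mul_div_cancel₀ _ ha]

/-- a small bound of the derivations and of the coefficients of `F` -/
noncomputable def Sizes.MF (S : Sizes Ω k Γ) (D : DSys Ω n c d) (p : S.V) : Γ :=
  S.M p * ∏ m, ∏ I ∈ (D.F m).support, S.sz (coeff I (D.F m)) p

theorem Sizes.one_le_prodF (S : Sizes Ω k Γ) (D : DSys Ω n c d) (p : S.V) :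
    1 ≤ ∏ m, ∏ I ∈ (D.F m).support, S.sz (coeff I (D.F m)) p :=
  Finset.one_le_prod' fun _ _ => Finset.one_le_prod' fun _ _ => S.one_le_sz _ p

theorem Sizes.M_le_MF (S : Sizes Ω k Γ) (D : DSys Ω n c d) (p : S.V) : S.M p ≤ S.MF D p := by
  calc S.M p = S.M p * 1 := (mul_one _).symm
    _ ≤ _ := mul_le_mul' le_rfl (S.one_le_prodF D p)

theorem Sizes.one_le_MF (S : Sizes Ω k Γ) (D : DSys Ω n c d) (p : S.V) : 1 ≤ S.MF D p :=
  (S.one_le p).trans (S.M_le_MF D p)

theorem Sit.small_MF (h : Sit S D x j0) : S.Small (S.MF D) :=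
  S.small_M.mul (Sizes.Small.prod Finset.univ fun m _ =>
    Sizes.Small.prod (D.F m).support fun I _ => S.small_sz (h.kF m I))

theorem Sizes.CB_F (S : Sizes Ω k Γ) (D : DSys Ω n c d) (p : S.V) (m : Fin c) :
    G.CB (S.v p) (D.F m) (S.MF D p) := by
  classical
  intro I
  by_cases hI : I ∈ (D.F m).support
  · calc S.v p (coeff I (D.F m)) ≤ S.sz (coeff I (D.F m)) p := S.le_sz _ p
      _ ≤ ∏ I ∈ (D.F m).support, S.sz (coeff I (D.F m)) p :=
        Finset.single_le_prod' (f := fun I => S.sz (coeff I (D.F m)) p)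
          (fun i _ => S.one_le_sz _ p) hI
      _ ≤ ∏ m, ∏ I ∈ (D.F m).support, S.sz (coeff I (D.F m)) p :=
        Finset.single_le_prod' (f := fun m => ∏ I ∈ (D.F m).support, S.sz (coeff I (D.F m)) p)
          (fun i _ => Finset.one_le_prod' fun _ _ => S.one_le_sz _ p) (Finset.mem_univ m)
      _ = 1 * _ := (one_mul _).symm
      _ ≤ _ := mul_le_mul' (S.one_le p) le_rfl
  · rw [notMem_support_iff.1 hI, map_zero]
    exact zero_le

theorem Sit.hdelF (h : Sit S D x j0) (p : S.V) (m : Fin c) (I : Fin (n + 1) →₀ ℕ)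
    (hI : I.degree = d m) (f : Ω) (hf : S.v p f ≤ 1) : S.v p (D.del m I f) ≤ S.MF D p :=
  (h.hdel p m I hI f hf).trans (S.M_le_MF D p)

/-- the local normal form of the columns `V(G)`: `iv` is the index of a largest coordinate -/
theorem Sit.red_V (h : Sit S D x j0) (p : S.V) {iv : Fin (n + 1)}
    (hle : ∀ j, S.v p (x j) ≤ S.v p (x iv)) (g : Γ) (G : TP Ω n c)
    (hG : ∀ m, ∀ I ∈ (G m).support, I.degree = d m) (hb : ∀ m, T2.G.CB (S.v p) (G m) g) :
    ∃ N : Fin (n + 1) → Ω, VT D x G - x iv • N ∈ Submodule.span Ω {x} ∧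
      ∀ a, S.v p (N a) ≤ g * S.M p := by
  have hiv : x iv ≠ 0 := by
    intro h0
    have h1 := hle j0
    rw [h.hj0, h0, map_one, map_zero] at h1
    exact absurd h1 (not_le.2 zero_lt_one)
  exact ⟨_, VT_scale D x hiv G, fun a =>
    T2.G.VT_bound D _ (S.v p) (S.M p) g (h.hdel p) (T2.G.v_smul_le x hiv hle) G hG hb a⟩

/-- the local normal form of the columns `W(p,q)` -/
theorem Sit.red_W (h : Sit S D x j0) (p : S.V) {iv : Fin (n + 1)}
    (hle : ∀ j, S.v p (x j) ≤ S.v p (x iv)) (a b : Fin (n + 1)) :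
    ∃ N : Fin (n + 1) → Ω, WT D x a b - x iv • N ∈ Submodule.span Ω {x} ∧
      ∀ i, S.v p (N i) ≤ S.MF D p * S.MF D p := by
  have hiv : x iv ≠ 0 := by
    intro h0
    have h1 := hle j0
    rw [h.hj0, h0, map_one, map_zero] at h1
    exact absurd h1 (not_le.2 zero_lt_one)
  exact T2.G.WT_red D x (S.one_le_MF D p) (h.hdelF p) (fun m => S.CB_F D p m) hiv hle a b

/-- the size of `x ^ V(G)` -/
theorem Sit.v_wedge_le (h : Sit S D x j0) (p : S.V) (g : Γ) (G : TP Ω n c)
    (hG : ∀ m, ∀ I ∈ (G m).support, I.degree = d m) (hb : ∀ m, T2.G.CB (S.v p) (G m) g)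
    (q r : Fin (n + 1)) :
    S.v p (plu x (VT D x G) q r) ≤ g * S.M p * S.nm x p ^ 2 := by
  obtain ⟨iv, h1, h2⟩ := S.exists_nm x p
  obtain ⟨N, hN, hN'⟩ := h.red_V p h2 g G hG hb
  obtain ⟨t, ht⟩ := Submodule.mem_span_singleton.1 hN
  have h3 : plu x (VT D x G) q r = x iv * (x q * N r - x r * N q) := by
    have h4 : ∀ a, VT D x G a = t * x a + x iv * N a := by
      intro a
      have := congrFun ht a
      rw [Pi.smul_apply, Pi.sub_apply, Pi.smul_apply, smul_eq_mul, smul_eq_mul] at this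
      rw [this]
      ring
    unfold plu
    rw [h4, h4]
    ring
  rw [h3, map_mul, h1, sq, mul_comm (g * S.M p), mul_assoc]
  refine mul_le_mul' le_rfl ((Valuation.map_sub _ _ _).trans (max_le ?_ ?_))
  · rw [map_mul]
    exact mul_le_mul' (h2 q) (hN' r)
  · rw [map_mul]
    exact mul_le_mul' (h2 r) (hN' q)

end Pool.Agent.T2
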