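import Pool.Agent.Lib.MP_c7af3c_ag.T2.H26.Final
import Pool.Agent.Lib.MP_c7af3c_ag.T2.H14.PlaneType
import Pool.Agent.Lib.MP_c7af3c_ag.T2.H51.Onto
import Pool.Agent.Lib.MP_c7af3c_ag.T2.H44.Norm2
import Pool.Agent.Lib.MP_c7af3c_ag.T2.H80.Norm3
import Pool.Agent.Lib.MP_c7af3c_ag.T2.H80.Norm4
import Pool.Agent.Lib.MP_c7af3c_ag.T2.LC.Cov
import Pool.Agent.Lib.MP_c7af3c_ag.T2.LC.C12
import Pool.Agent.Lib.MP_c7af3c_ag.T2.LC.K1
import Pool.Agent.Lib.MP_c7af3c_ag.T2.LC.K2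
import Pool.Agent.Lib.MP_c7af3c_ag.T2.LC.VL
import Pool.Agent.Lib.MP_c7af3c_ag.T2.LC.AB
import Pool.Agent.Lib.MP_c7af3c_ag.T2.LC.FV
import Pool.Agent.Lib.MP_c7af3c_ag.T2.LC.E5

/-!
# MP_c7af3c_ag, project T2: the height inequality for very general sextic threefolds
-/

set_option autoImplicit false

namespace Pool.Agent.T2.H54

open Pool.Agent.Edge Pool.Agent.T2

theorem lemc : LemcStatement :=
  LC.cov LC.K1.k1 (LC.k2 LC.K1.k1) (LC.VL.vl LC.K1.k1 (LC.k2 LC.K1.k1)) LC.AB.ab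
    (LC.c12_of LC.FV.fv LC.E5.e5)

theorem plane : PlaneTypeStatement :=
  H14.plane_of H51.onto lemc H44.norm2 H80.norm3 H80.norm4

/-- The height inequality for very general sextic threefolds. -/
theorem hbe (j0 : Fin (4 + 1)) : HBE 4 1 (fun _ => 6) j0 :=
  H26.hbe4 plane j0

end Pool.Agent.T2.H54
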