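import Pool.Agent.Lib.MP_c7af3c_ag.T2.Sizes

/-!
# MP_c7af3c_ag, project T2: small functions of the place
A function `g` of the place is small if it is at most a product of a power of `M` and of powers of
the sizes of finitely many elements of `k`; then `y ∈ k` iff its size is small.
-/

set_option autoImplicit false

namespace Pool.Agent.T2

open MvPolynomial Pool.Agent.Gen Pool.Agent.Sharp Pool.Agent.Edge

section

variable {Ω : Type} [Field Ω] {k : Subfield Ω} {Γ : Type} [LinearOrderedCommGroupWithZero Γ]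
  (S : Sizes Ω k Γ)

/-- the size `max(1, |b|)` -/
def Sizes.sz (b : Ω) (p : S.V) : Γ := max 1 (S.v p b)

theorem Sizes.one_le_sz (b : Ω) (p : S.V) : 1 ≤ S.sz b p := le_max_left _ _

theorem Sizes.le_sz (b : Ω) (p : S.V) : S.v p b ≤ S.sz b p := le_max_right _ _

/-- small functions of the place -/
def Sizes.Small (g : S.V → Γ) : Prop :=
  ∃ (s : Finset Ω) (C : ℕ), (∀ b ∈ s, b ∈ k) ∧ ∀ p, g p ≤ S.M p ^ C * ∏ b ∈ s, S.sz b p ^ C

variable {S}

theorem Sizes.Small.mono {g h : S.V → Γ} (hh : S.Small h) (hle : ∀ p, g p ≤ h p) :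
    S.Small g := by
  obtain ⟨s, C, h1, h2⟩ := hh
  exact ⟨s, C, h1, fun p => (hle p).trans (h2 p)⟩

theorem Sizes.Small.mem {y : Ω} (h : S.Small fun p => S.v p y) : y ∈ k := by
  obtain ⟨s, C, h1, h2⟩ := h
  exact S.mem s C y h1 h2

variable (S)

theorem Sizes.small_one : S.Small fun _ => 1 :=
  ⟨∅, 0, fun b hb => absurd hb (Finset.notMem_empty b), fun p => by simp⟩

theorem Sizes.small_M : S.Small S.M :=
  ⟨∅, 1, fun b hb => absurd hb (Finset.notMem_empty b), fun p => by simp⟩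

theorem Sizes.small_sz {b : Ω} (hb : b ∈ k) : S.Small (S.sz b) := by
  refine ⟨{b}, 1, fun c hc => ?_, fun p => ?_⟩
  · rw [Finset.mem_singleton.1 hc]
    exact hb
  · rw [Finset.prod_singleton, pow_one, pow_one]
    calc S.sz b p = 1 * S.sz b p := (one_mul _).symm
      _ ≤ S.M p * S.sz b p := mul_le_mul' (S.one_le p) le_rfl

theorem Sizes.small_v {b : Ω} (hb : b ∈ k) : S.Small fun p => S.v p b :=
  (S.small_sz hb).mono fun p => S.le_sz b p

theorem Sizes.mem_iff (y : Ω) : y ∈ k ↔ S.Small fun p => S.v p y :=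
  ⟨S.small_v, fun h => h.mem⟩

variable {S}

theorem prod_mono_exp {J : Type} [DecidableEq J] (s t : Finset J) (hst : s ⊆ t) (f : J → Γ)
    (hf : ∀ j, 1 ≤ f j) (a b : ℕ) (hab : a ≤ b) : ∏ j ∈ s, f j ^ a ≤ ∏ j ∈ t, f j ^ b := by
  calc ∏ j ∈ s, f j ^ a ≤ ∏ j ∈ s, f j ^ b :=
        Finset.prod_le_prod' fun j _ => pow_le_pow_right₀ (hf j) hab
    _ ≤ ∏ j ∈ t, f j ^ b :=
        Finset.prod_le_prod_of_subset_of_one_le' hst fun j _ _ => one_le_pow₀ (hf j)

/-- a common bound with exponents and sets as large as wished -/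
theorem Sizes.Small.bound {g : S.V → Γ} {s : Finset Ω} {C : ℕ}
    (h : ∀ p, g p ≤ S.M p ^ C * ∏ b ∈ s, S.sz b p ^ C) {t : Finset Ω} (hst : s ⊆ t) {C' : ℕ}
    (hC : C ≤ C') (p : S.V) : g p ≤ S.M p ^ C' * ∏ b ∈ t, S.sz b p ^ C' := by
  classical
  exact (h p).trans (mul_le_mul' (pow_le_pow_right₀ (S.one_le p) hC)
    (prod_mono_exp s t hst (fun b => S.sz b p) (fun b => S.one_le_sz b p) C C' hC))

theorem Sizes.Small.mul {g h : S.V → Γ} (hg : S.Small g) (hh : S.Small h) :
    S.Small fun p => g p * h p := by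
  classical
  obtain ⟨s, C, h1, h2⟩ := hg
  obtain ⟨t, C', h3, h4⟩ := hh
  refine ⟨s ∪ t, C + C', fun b hb => ?_, fun p => ?_⟩
  · rcases Finset.mem_union.1 hb with h | h
    · exact h1 b h
    · exact h3 b h
  · have e1 := Sizes.Small.bound h2 (t := s ∪ t) Finset.subset_union_left (le_refl C) p
    have e2 := Sizes.Small.bound h4 (t := s ∪ t) Finset.subset_union_right (le_refl C') p
    refine (mul_le_mul' e1 e2).trans (le_of_eq ?_)
    rw [pow_add, Finset.prod_congr rfl fun b _ => pow_add (S.sz b p) C C',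
      Finset.prod_mul_distrib]
    exact mul_mul_mul_comm _ _ _ _

theorem Sizes.Small.pow {g : S.V → Γ} (hg : S.Small g) (N : ℕ) : S.Small fun p => g p ^ N := by
  induction N with
  | zero => simpa using S.small_one
  | succ N ih => simpa [pow_succ] using ih.mul hg

theorem Sizes.Small.max {g h : S.V → Γ} (hg : S.Small g) (hh : S.Small h) :
    S.Small fun p => Max.max (g p) (h p) := by
  classical
  obtain ⟨s, C, h1, h2⟩ := hg
  obtain ⟨t, C', h3, h4⟩ := hh
  refine ⟨s ∪ t, C + C', fun b hb => ?_, fun p => ?_⟩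
  · rcases Finset.mem_union.1 hb with h | h
    · exact h1 b h
    · exact h3 b h
  · exact max_le
      (Sizes.Small.bound h2 (t := s ∪ t) Finset.subset_union_left (Nat.le_add_right C C') p)
      (Sizes.Small.bound h4 (t := s ∪ t) Finset.subset_union_right (Nat.le_add_left C' C) p)

theorem Sizes.Small.one_max {g : S.V → Γ} (hg : S.Small g) :
    S.Small fun p => Max.max 1 (g p) :=
  (S.small_one).max hg

theorem Sizes.Small.prod {J : Type} (s : Finset J) {g : J → S.V → Γ}
    (hg : ∀ j ∈ s, S.Small (g j)) : S.Small fun p => ∏ j ∈ s, g j p := by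
  classical
  induction s using Finset.induction_on with
  | empty => simpa using S.small_one
  | insert a s ha ih =>
    have h1 := (hg a (Finset.mem_insert_self a s)).mul
      (ih fun j hj => hg j (Finset.mem_insert_of_mem hj))
    refine h1.mono fun p => ?_
    rw [Finset.prod_insert ha]

/-- the maximum of finitely many small functions -/
theorem Sizes.Small.sup {J : Type} (s : Finset J) {g : J → S.V → Γ}
    (hg : ∀ j ∈ s, S.Small (g j)) : S.Small fun p => s.sup fun j => g j p := by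
  classical
  have h1 : S.Small fun p => ∏ j ∈ s, Max.max 1 (g j p) :=
    Sizes.Small.prod s (g := fun j p => Max.max 1 (g j p)) fun j hj => (hg j hj).one_max
  refine h1.mono fun p => Finset.sup_le fun j hj => ?_
  refine (le_max_right 1 (g j p)).trans ?_
  exact Finset.single_le_prod' (f := fun j => Max.max 1 (g j p)) (fun i _ => le_max_left _ _) hj

/-- the inverse of the size of a nonzero element of `k` is small -/
theorem Sizes.small_inv (S : Sizes Ω k Γ) {b : Ω} (hb : b ∈ k) :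
    S.Small fun p => (S.v p b)⁻¹ := by
  have h := S.small_v (k.inv_mem hb)
  refine h.mono fun p => ?_
  rw [map_inv₀]

/-- the largest size of the coordinates of a vector -/
def Sizes.nm (S : Sizes Ω k Γ) {J : Type} [Fintype J] (x : J → Ω) (p : S.V) : Γ :=
  Finset.univ.sup fun j => S.v p (x j)

theorem Sizes.le_nm (S : Sizes Ω k Γ) {J : Type} [Fintype J] (x : J → Ω) (p : S.V) (j : J) :
    S.v p (x j) ≤ S.nm x p :=
  Finset.le_sup (f := fun j => S.v p (x j)) (Finset.mem_univ j)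

theorem Sizes.nm_le (S : Sizes Ω k Γ) {J : Type} [Fintype J] (x : J → Ω) (p : S.V) {a : Γ}
    (h : ∀ j, S.v p (x j) ≤ a) : S.nm x p ≤ a := Finset.sup_le fun j _ => h j

theorem Sizes.one_le_nm (S : Sizes Ω k Γ) {J : Type} [Fintype J] (x : J → Ω) (p : S.V) {j0 : J}
    (h : x j0 = 1) : 1 ≤ S.nm x p := by
  have := S.le_nm x p j0
  rwa [h, map_one] at this

/-- a coordinate of largest size -/
theorem Sizes.exists_nm (S : Sizes Ω k Γ) {J : Type} [Fintype J] [Nonempty J] (x : J → Ω)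
    (p : S.V) : ∃ j, S.nm x p = S.v p (x j) ∧ ∀ i, S.v p (x i) ≤ S.v p (x j) := by
  obtain ⟨j, hj⟩ := Finite.exists_max fun i => S.v p (x i)
  exact ⟨j, le_antisymm (S.nm_le x p hj) (S.le_nm x p j), hj⟩

theorem Sizes.nm_mem (S : Sizes Ω k Γ) {J : Type} [Fintype J] (x : J → Ω) :
    (S.Small fun p => S.nm x p) ↔ ∀ j, x j ∈ k := by
  constructor
  · intro h j
    exact (h.mono fun p => S.le_nm x p j).mem
  · intro h
    exact Sizes.Small.sup Finset.univ fun j _ => S.small_v (h j)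

/-- (S0) with two vectors: if `|c| |x| |y|` is small, `c ≠ 0` and `x`, `y` have a coordinate 1 then
`c`, `x`, `y` are over `k`. -/
theorem Sizes.s0 (S : Sizes Ω k Γ) {J J' : Type} [Fintype J] [Fintype J'] {x : J → Ω}
    {y : J' → Ω} {j0 : J} {j0' : J'} (hx : x j0 = 1) (hy : y j0' = 1) {c : Ω} (hc : c ≠ 0)
    (h : S.Small fun p => S.v p c * S.nm x p * S.nm y p) :
    c ∈ k ∧ (∀ j, x j ∈ k) ∧ ∀ j, y j ∈ k := by
  have hx1 : ∀ p, 1 ≤ S.nm x p := fun p => S.one_le_nm x p hx
  have hy1 : ∀ p, 1 ≤ S.nm y p := fun p => S.one_le_nm y p hy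
  have hck : c ∈ k := by
    refine (h.mono fun p => ?_).mem
    calc S.v p c = S.v p c * 1 * 1 := by rw [mul_one, mul_one]
      _ ≤ _ := mul_le_mul' (mul_le_mul' le_rfl (hx1 p)) (hy1 p)
  have hc0 : ∀ p, S.v p c ≠ 0 := fun p => (map_ne_zero (S.v p)).2 hc
  refine ⟨hck, (S.nm_mem x).1 ?_, (S.nm_mem y).1 ?_⟩
  · refine ((S.small_inv hck).mul h).mono fun p => ?_
    calc S.nm x p = S.nm x p * 1 := (mul_one _).symm
      _ ≤ S.nm x p * S.nm y p := mul_le_mul' le_rfl (hy1 p)
      _ = (S.v p c)⁻¹ * (S.v p c * S.nm x p * S.nm y p) := by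
        rw [← mul_assoc, ← mul_assoc, inv_mul_cancel₀ (hc0 p), one_mul]
  · refine ((S.small_inv hck).mul h).mono fun p => ?_
    calc S.nm y p = 1 * S.nm y p := (one_mul _).symm
      _ ≤ S.nm x p * S.nm y p := mul_le_mul' (hx1 p) le_rfl
      _ = (S.v p c)⁻¹ * (S.v p c * S.nm x p * S.nm y p) := by
        rw [← mul_assoc, ← mul_assoc, inv_mul_cancel₀ (hc0 p), one_mul]

/-- (S0) with one vector -/
theorem Sizes.s01 (S : Sizes Ω k Γ) {J : Type} [Fintype J] {x : J → Ω}
    {j0 : J} (hx : x j0 = 1) {c : Ω} (hc : c ≠ 0)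
    (h : S.Small fun p => S.v p c * S.nm x p) : c ∈ k ∧ ∀ j, x j ∈ k := by
  have h1 := S.s0 (y := fun _ : Unit => (1 : Ω)) (j0' := ()) hx rfl hc (h.mono fun p => ?_)
  · exact ⟨h1.1, h1.2.1⟩
  · have h2 : S.nm (fun _ : Unit => (1 : Ω)) p = 1 := by
      refine le_antisymm (S.nm_le _ p fun j => ?_) (S.one_le_nm (j0 := ()) _ p rfl)
      rw [map_one]
    rw [h2, mul_one]

end

end Pool.Agent.T2
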